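import Mathlib
import Pool.Agent.V1131.TwoFiveB

open MulAction Equiv
open scoped Nat

namespace Pool.Agent.Results.MP_e51b07_al.TwoFive

/-- `S` meets every left coset `gH` in exactly one element. -/
def IsLeftTransversal {G : Type*} [Group G] (H : Subgroup G) (S : Set G) : Prop :=
  ∀ g : G, ∃! s : G, s ∈ S ∧ g⁻¹ * s ∈ H

/-- `S` meets every right coset `Kg` in exactly one element. -/
def IsRightTransversal {G : Type*} [Group G] (K : Subgroup G) (S : Set G) : Prop :=
  ∀ g : G, ∃! s : G, s ∈ S ∧ s * g⁻¹ ∈ K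

/-- The common transversal probability `P_G(H,K)`. -/
noncomputable def prob {G : Type*} [Group G] (H K : Subgroup G) : ℚ :=
  (Nat.card {S : Set G // IsLeftTransversal H S ∧ IsRightTransversal K S} : ℚ) /
    (Nat.card H : ℚ) ^ H.index

/-- The block diagonal matrix `T` with blocks of order `t i` and entries `1 / t i`. -/
def T {s : ℕ} (t : Fin s → ℕ) : Matrix (Σ i, Fin (t i)) (Σ i, Fin (t i)) ℚ :=
  Matrix.blockDiagonal' fun i => Matrix.of fun _ _ => (1 / (t i : ℚ))

section Perm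

lemma sum_perm {α ι : Type*} [Fintype α] [Fintype ι] [DecidableEq α] [DecidableEq ι] (f : α → ι)
    (w : ι → ℚ) : ∑ σ : Perm α, ∏ a, (if f (σ a) = f a then w (f a) else 0) =
      ∏ i, (((Nat.card {a // f a = i})! : ℚ) * w i ^ Nat.card {a // f a = i}) := by
  have h1 : ∀ σ : Perm α, ∏ a, (if f (σ a) = f a then w (f a) else 0) =
      if f ∘ σ = f then ∏ a, w (f a) else 0 := by
    intro σ
    by_cases h : f ∘ σ = f
    · rw [if_pos h]
      apply Finset.prod_congr rfl
      intro a _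
      exact if_pos (congrFun h a)
    · rw [if_neg h]
      obtain ⟨a, ha⟩ : ∃ a, f (σ a) ≠ f a := by
        by_contra hcon
        push Not at hcon
        exact h (funext hcon)
      exact Finset.prod_eq_zero (Finset.mem_univ a) (if_neg ha)
  simp_rw [h1]
  rw [← Finset.sum_filter, Finset.sum_const, nsmul_eq_mul, Finset.prod_mul_distrib]
  congr 1
  · rw [← Fintype.card_subtype, DomMulAct.stabilizer_card f]
    push_cast
    apply Finset.prod_congr rfl
    intro i _
    rw [Nat.card_eq_fintype_card]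
  · rw [← Finset.prod_fiberwise (s := Finset.univ) (g := f) (f := fun a => w (f a))]
    apply Finset.prod_congr rfl
    intro i _
    rw [Finset.prod_congr rfl (g := fun _ => w i), Finset.prod_const]
    · congr 1
      rw [Nat.card_eq_fintype_card, Fintype.card_subtype]
    · intro a ha
      rw [(Finset.mem_filter.mp ha).2]

end Perm

section Count

variable {G : Type*} [Group G] [Finite G] (H K : Subgroup G)

/-- the orbit of the left coset of `g` -/
noncomputable def rhoG (g : G) : orbitRel.Quotient K (G ⧸ H) := Quotient.mk'' (g : G ⧸ H)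

lemma rhoG_eq_iff (g g' : G) : rhoG H K g = rhoG H K g' ↔ ∃ k ∈ K, ((k * g : G) : G ⧸ H) = g' := by
  rw [rhoG, rhoG, Quotient.eq'', orbitRel_apply]
  constructor
  · rintro ⟨k, hk⟩
    refine ⟨(k : G)⁻¹, K.inv_mem k.2, ?_⟩
    have h1 : ((k : G) • (g' : G ⧸ H)) = (g : G ⧸ H) := hk
    have h2 : (((k : G)⁻¹ * g : G) : G ⧸ H) = (k : G)⁻¹ • (g : G ⧸ H) := rfl
    rw [h2, ← h1, inv_smul_smul]
  · rintro ⟨k, hk, h⟩
    refine ⟨⟨k⁻¹, K.inv_mem hk⟩, ?_⟩
    show (k⁻¹ : G) • (g' : G ⧸ H) = (g : G ⧸ H)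
    rw [← h]
    have h2 : ((k * g : G) : G ⧸ H) = k • (g : G ⧸ H) := rfl
    rw [h2, inv_smul_smul]

lemma rhoG_mul {k : G} (hk : k ∈ K) (g : G) : rhoG H K (k * g) = rhoG H K g := by
  symm
  rw [rhoG_eq_iff]
  exact ⟨k, hk, rfl⟩

/-- the right coset of `g`, as a left coset of the inverse -/
def rr (g : G) : G ⧸ K := (g⁻¹ : G)

lemma rr_eq_iff {g g' : G} : rr K g = rr K g' ↔ g * g'⁻¹ ∈ K := by
  rw [rr, rr, QuotientGroup.eq, inv_inv]

lemma rhoG_of_rr {g g' : G} (h : rr K g = rr K g') : rhoG H K g = rhoG H K g' := by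
  rw [rr_eq_iff] at h
  have := rhoG_mul H K h g'
  rw [inv_mul_cancel_right] at this
  exact this

/-- the orbit attached to a right coset -/
noncomputable def rhoY (y : G ⧸ K) : orbitRel.Quotient K (G ⧸ H) := rhoG H K (y.out)⁻¹

lemma rhoY_rr (g : G) : rhoY H K (rr K g) = rhoG H K g := by
  apply rhoG_of_rr
  rw [rr, inv_inv]
  exact QuotientGroup.out_eq' _

lemma exists_elem {x : G ⧸ H} {y : G ⧸ K}
    (h : rhoY H K y = (Quotient.mk'' x : orbitRel.Quotient K (G ⧸ H))) :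
    ∃ g : G, (g : G ⧸ H) = x ∧ rr K g = y := by
  obtain ⟨g, rfl⟩ := QuotientGroup.mk_surjective x
  have h1 : rhoG H K (y.out)⁻¹ = rhoG H K g := h
  rw [rhoG_eq_iff] at h1
  obtain ⟨k, hk, h2⟩ := h1
  refine ⟨k * (y.out)⁻¹, h2, ?_⟩
  rw [rr, mul_inv_rev, inv_inv]
  have h3 : ((y.out * k⁻¹ : G) : G ⧸ K) = (y.out : G) := by
    rw [QuotientGroup.eq]
    simpa using hk
  rw [h3]
  exact QuotientGroup.out_eq' _

/-- The number of elements in the intersection of a left coset and a right coset. -/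
lemma card_inter (x : G ⧸ H) (y : G ⧸ K) :
    Nat.card {g : G // (g : G ⧸ H) = x ∧ rr K g = y} * Nat.card (orbit K x) =
      (open Classical in
      if rhoY H K y = (Quotient.mk'' x : orbitRel.Quotient K (G ⧸ H)) then Nat.card K else 0) := by
  classical
  by_cases h : rhoY H K y = (Quotient.mk'' x : orbitRel.Quotient K (G ⧸ H))
  · rw [if_pos h]
    obtain ⟨g₀, hx, hy⟩ := exists_elem H K h
    have h1 : Nat.card (orbit K x) * Nat.card (stabilizer K x) = Nat.card K := by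
      rw [← Nat.card_prod]
      exact Nat.card_congr (orbitProdStabilizerEquivGroup K x)
    rw [← h1, mul_comm]
    congr 1
    refine Nat.card_congr
      { toFun := fun g => ⟨⟨g.1 * g₀⁻¹, ?_⟩, ?_⟩
        invFun := fun k => ⟨k.1.1 * g₀, ?_, ?_⟩
        left_inv := fun g => ?_
        right_inv := fun k => ?_ }
    · rw [← rr_eq_iff, g.2.2, hy]
    · rw [mem_stabilizer_iff]
      show (g.1 * g₀⁻¹) • x = x
      have h3 : (g.1 * g₀⁻¹) • (g₀ : G ⧸ H) = (g.1 : G ⧸ H) := by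
        show ((g.1 * g₀⁻¹ * g₀ : G) : G ⧸ H) = _
        rw [inv_mul_cancel_right]
      rw [hx, g.2.1] at h3
      exact h3
    · have h2 : (k.1.1) • x = x := k.2
      have h3 : ((k.1.1 * g₀ : G) : G ⧸ H) = k.1.1 • (g₀ : G ⧸ H) := rfl
      rw [h3, hx, h2]
    · rw [← hy, rr_eq_iff, mul_inv_cancel_right]
      exact k.1.2
    · apply Subtype.ext
      show g.1 * g₀⁻¹ * g₀ = g.1
      rw [inv_mul_cancel_right]
    · apply Subtype.ext
      apply Subtype.ext
      show k.1.1 * g₀ * g₀⁻¹ = k.1.1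
      rw [mul_inv_cancel_right]
  · rw [if_neg h]
    have : IsEmpty {g : G // (g : G ⧸ H) = x ∧ rr K g = y} := by
      constructor
      rintro ⟨g, hx, hy⟩
      apply h
      rw [← hy, rhoY_rr, ← hx]
      rfl
    rw [Nat.card_of_isEmpty, zero_mul]

/-- fibre of the map to left cosets -/
lemma card_fib (x : G ⧸ H) : Nat.card {g : G // (g : G ⧸ H) = x} = Nat.card H := by
  obtain ⟨g₀, rfl⟩ := QuotientGroup.mk_surjective x
  refine Nat.card_congr
    { toFun := fun g => ⟨g₀⁻¹ * g.1, ?_⟩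
      invFun := fun h => ⟨g₀ * h.1, ?_⟩
      left_inv := fun g => ?_
      right_inv := fun h => ?_ }
  · rw [← QuotientGroup.eq]
    exact g.2.symm
  · symm
    rw [QuotientGroup.eq, inv_mul_cancel_left]
    exact h.2
  · apply Subtype.ext
    exact mul_inv_cancel_left _ _
  · apply Subtype.ext
    exact inv_mul_cancel_left _ _

lemma card_fib' (y : G ⧸ K) : Nat.card {g : G // rr K g = y} = Nat.card K := by
  rw [← card_fib K y]
  exact Nat.card_congr
    { toFun := fun g => ⟨g.1⁻¹, g.2⟩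
      invFun := fun g => ⟨g.1⁻¹, by
        rw [rr, inv_inv]
        exact g.2⟩
      left_inv := fun g => Subtype.ext (inv_inv _)
      right_inv := fun g => Subtype.ext (inv_inv _) }

lemma card_over {A : Type*} [Finite A] (p : G → A) (n : ℕ)
    (hp : ∀ a, Nat.card {g : G // p g = a} = n) {B : Type*} (q : A → B) (b : B) :
    Nat.card {g : G // q (p g) = b} = Nat.card {a : A // q a = b} * n := by
  classical
  have e : {g : G // q (p g) = b} ≃ Σ a : {a : A // q a = b}, {g : G // p g = a.1} :=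
    { toFun := fun g => ⟨⟨p g.1, g.2⟩, ⟨g.1, rfl⟩⟩
      invFun := fun z => ⟨z.2.1, by
        rw [z.2.2]
        exact z.1.2⟩
      left_inv := fun _ => rfl
      right_inv := by
        rintro ⟨⟨a, ha⟩, ⟨g, hg⟩⟩
        have hg' : p g = a := hg
        subst hg'
        rfl }
  have := Fintype.ofFinite {a : A // q a = b}
  rw [Nat.card_congr e, Nat.card_sigma]
  rw [Finset.sum_congr rfl (g := fun _ => n) (fun a _ => hp a.1), Finset.sum_const,
    Finset.card_univ, smul_eq_mul, Nat.card_eq_fintype_card]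

lemma fibres_eq (hHK : Nat.card H = Nat.card K) (ω : orbitRel.Quotient K (G ⧸ H)) :
    Nat.card {x : G ⧸ H // (Quotient.mk'' x : orbitRel.Quotient K (G ⧸ H)) = ω} =
      Nat.card {y : G ⧸ K // rhoY H K y = ω} := by
  have h1 := card_over (fun g : G => (g : G ⧸ H)) (Nat.card H) (card_fib H)
    (fun x : G ⧸ H => (Quotient.mk'' x : orbitRel.Quotient K (G ⧸ H))) ω
  have h2 := card_over (fun g : G => rr K g) (Nat.card K) (card_fib' K) (rhoY H K) ω
  have h3 : Nat.card {g : G // (Quotient.mk'' (g : G ⧸ H) : orbitRel.Quotient K (G ⧸ H)) = ω} =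
      Nat.card {g : G // rhoY H K (rr K g) = ω} := by
    refine Nat.card_congr (Equiv.subtypeEquivRight fun g => ?_)
    rw [rhoY_rr]
    rfl
  rw [h1, h2, hHK] at h3
  exact Nat.eq_of_mul_eq_mul_right Nat.card_pos h3

lemma exists_equiv (hHK : Nat.card H = Nat.card K) : ∃ π : (G ⧸ H) ≃ (G ⧸ K),
    ∀ x, rhoY H K (π x) = (Quotient.mk'' x : orbitRel.Quotient K (G ⧸ H)) := by
  have h1 : ∀ ω : orbitRel.Quotient K (G ⧸ H),
      Nonempty ({x : G ⧸ H // (Quotient.mk'' x : orbitRel.Quotient K (G ⧸ H)) = ω} ≃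
        {y : G ⧸ K // rhoY H K y = ω}) := fun ω => Finite.card_eq.mp (fibres_eq H K hHK ω)
  have e := fun ω => (h1 ω).some
  refine ⟨(Equiv.sigmaFiberEquiv _).symm.trans
    ((Equiv.sigmaCongrRight e).trans (Equiv.sigmaFiberEquiv (rhoY H K))), ?_⟩
  intro x
  exact (e _ ⟨x, rfl⟩).2

lemma left_iff {S : Set G} : IsLeftTransversal H S ↔
    ∀ x : G ⧸ H, ∃! s : G, s ∈ S ∧ (s : G ⧸ H) = x := by
  constructor
  · intro h x
    obtain ⟨g, rfl⟩ := QuotientGroup.mk_surjective x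
    obtain ⟨s, ⟨hs, hs'⟩, hu⟩ := h g
    refine ⟨s, ⟨hs, ?_⟩, ?_⟩
    · rw [← QuotientGroup.eq] at hs'
      exact hs'.symm
    · rintro s' ⟨h1, h2⟩
      exact hu s' ⟨h1, QuotientGroup.eq.mp h2.symm⟩
  · intro h g
    obtain ⟨s, ⟨hs, hs'⟩, hu⟩ := h g
    exact ⟨s, ⟨hs, QuotientGroup.eq.mp hs'.symm⟩,
      fun s' hs' => hu s' ⟨hs'.1, (QuotientGroup.eq.mpr hs'.2).symm⟩⟩

lemma right_iff {S : Set G} : IsRightTransversal K S ↔
    ∀ y : G ⧸ K, ∃! s : G, s ∈ S ∧ rr K s = y := by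
  constructor
  · intro h y
    obtain ⟨g, rfl⟩ := QuotientGroup.mk_surjective y
    obtain ⟨s, ⟨hs, hs'⟩, hu⟩ := h g⁻¹
    have e : ∀ s : G, rr K s = (g : G ⧸ K) ↔ s * (g⁻¹)⁻¹ ∈ K := by
      intro s
      rw [← rr_eq_iff, rr, rr, inv_inv]
    refine ⟨s, ⟨hs, (e s).mpr hs'⟩, fun s' h' => hu s' ⟨h'.1, (e s').mp h'.2⟩⟩
  · intro h g
    obtain ⟨s, ⟨hs, hs'⟩, hu⟩ := h (rr K g)
    exact ⟨s, ⟨hs, (rr_eq_iff K).mp hs'⟩, fun s' h' => hu s' ⟨h'.1, (rr_eq_iff K).mpr h'.2⟩⟩

lemma card_quot (hHK : Nat.card H = Nat.card K) : Nat.card (G ⧸ H) = Nat.card (G ⧸ K) := by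
  have h1 := Subgroup.card_mul_index H
  have h2 := Subgroup.card_mul_index K
  rw [← h2, hHK] at h1
  exact Nat.eq_of_mul_eq_mul_left Nat.card_pos h1

lemma card_DT (hHK : Nat.card H = Nat.card K) :
    Nat.card {S : Set G // IsLeftTransversal H S ∧ IsRightTransversal K S} =
      Nat.card {f : (G ⧸ H) → G // (∀ x, (f x : G ⧸ H) = x) ∧
        Function.Injective (fun x => rr K (f x))} := by
  symm
  apply Nat.card_congr
  refine Equiv.ofBijective (fun f => ⟨Set.range f.1, ?_, ?_⟩) ⟨?_, ?_⟩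
  · rw [left_iff]
    intro x
    refine ⟨f.1 x, ⟨⟨x, rfl⟩, f.2.1 x⟩, ?_⟩
    rintro _ ⟨⟨x', rfl⟩, h⟩
    rw [f.2.1] at h
    rw [h]
  · rw [right_iff]
    intro y
    have hbij : Function.Bijective (fun x => rr K (f.1 x)) :=
      (Nat.bijective_iff_injective_and_card _).mpr ⟨f.2.2, card_quot H K hHK⟩
    obtain ⟨x, hx⟩ := hbij.2 y
    refine ⟨f.1 x, ⟨⟨x, rfl⟩, hx⟩, ?_⟩
    rintro _ ⟨⟨x', rfl⟩, h⟩
    have : x' = x := hbij.1 (h.trans hx.symm)
    rw [this]
  · intro f f' hff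
    have h1 : Set.range f.1 = Set.range f'.1 := congrArg Subtype.val hff
    apply Subtype.ext
    funext x
    have h2 : f.1 x ∈ Set.range f'.1 := by
      rw [← h1]
      exact ⟨x, rfl⟩
    obtain ⟨x', hx'⟩ := h2
    have h3 : x' = x := by
      rw [← f'.2.1 x', hx', f.2.1]
    rw [← hx', h3]
  · rintro ⟨S, hl, hr⟩
    rw [left_iff] at hl
    rw [right_iff] at hr
    choose f hf hu using hl
    refine ⟨⟨f, fun x => (hf x).2, ?_⟩, ?_⟩
    · intro x x' hxx
      have h4 : f x = f x' := by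
        obtain ⟨s, -, hs⟩ := hr (rr K (f x'))
        rw [hs (f x) ⟨(hf x).1, hxx⟩, hs (f x') ⟨(hf x').1, rfl⟩]
      rw [← (hf x).2, ← (hf x').2, h4]
    · apply Subtype.ext
      show Set.range f = S
      ext s
      constructor
      · rintro ⟨x, rfl⟩
        exact (hf x).1
      · intro hs
        exact ⟨(s : G ⧸ H), (hu _ s ⟨hs, rfl⟩).symm⟩

/-- the size of an orbit -/
noncomputable def tt (ω : orbitRel.Quotient K (G ⧸ H)) : ℕ :=
  Nat.card {x : G ⧸ H // (Quotient.mk'' x : orbitRel.Quotient K (G ⧸ H)) = ω}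

lemma tt_mk (x : G ⧸ H) : tt H K (Quotient.mk'' x) = Nat.card (orbit K x) := by
  rw [tt]
  apply Nat.card_congr
  refine Equiv.subtypeEquivRight fun y => ?_
  rw [Quotient.eq'', orbitRel_apply]

lemma card_inter_rat (x : G ⧸ H) (y : G ⧸ K) :
    (Nat.card {g : G // (g : G ⧸ H) = x ∧ rr K g = y} : ℚ) =
      (open Classical in
      if rhoY H K y = (Quotient.mk'' x : orbitRel.Quotient K (G ⧸ H)) then
        (Nat.card K : ℚ) / tt H K (Quotient.mk'' x) else 0) := by
  classical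
  have h1 := card_inter H K x y
  rw [← tt_mk] at h1
  have hpos : (tt H K (Quotient.mk'' x) : ℚ) ≠ 0 := by
    rw [tt_mk]
    have : Nonempty (orbit K x) := ⟨⟨x, mem_orbit_self x⟩⟩
    exact_mod_cast Nat.card_pos.ne'
  rw [eq_comm]
  split_ifs with h
  · rw [if_pos h] at h1
    rw [div_eq_iff hpos]
    exact_mod_cast h1.symm
  · rw [if_neg h] at h1
    rcases Nat.mul_eq_zero.mp h1 with h2 | h2
    · rw [h2, Nat.cast_zero]
    · exfalso
      apply hpos
      rw [h2, Nat.cast_zero]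

theorem prob_eq (hHK : Nat.card H = Nat.card K) [Fintype (orbitRel.Quotient K (G ⧸ H))] :
    prob H K = ∏ ω : orbitRel.Quotient K (G ⧸ H), ((tt H K ω)! : ℚ) / (tt H K ω : ℚ) ^ tt H K ω := by
  classical
  have := Fintype.ofFinite (G ⧸ H)
  have := Fintype.ofFinite (G ⧸ K)
  have hF : Nat.card {f : (G ⧸ H) → G // (∀ x, (f x : G ⧸ H) = x) ∧
        Function.Injective (fun x => rr K (f x))} =
      ∑ π : (G ⧸ H) ≃ (G ⧸ K), ∏ x, Nat.card {g : G // (g : G ⧸ H) = x ∧ rr K g = π x} := by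
    obtain ⟨pf, hpf⟩ : ∃ pf : {f : (G ⧸ H) → G // (∀ x, (f x : G ⧸ H) = x) ∧
        Function.Injective (fun x => rr K (f x))} → ((G ⧸ H) ≃ (G ⧸ K)),
        ∀ f x, pf f x = rr K (f.1 x) :=
      ⟨fun f => Equiv.ofBijective (fun x => rr K (f.1 x))
        ((Nat.bijective_iff_injective_and_card _).mpr ⟨f.2.2, card_quot H K hHK⟩),
        fun _ _ => rfl⟩
    rw [← Nat.card_congr (Equiv.sigmaFiberEquiv pf), Nat.card_sigma]
    apply Finset.sum_congr rfl
    intro π _
    rw [← Nat.card_pi]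
    refine Nat.card_congr
      { toFun := fun f x => ⟨f.1.1 x, f.1.2.1 x, by
          rw [← hpf, f.2]⟩
        invFun := fun g => ⟨⟨fun x => (g x).1, fun x => (g x).2.1, fun x x' hxx => by
          have h1 : rr K (g x).1 = rr K (g x').1 := hxx
          rw [(g x).2.2, (g x').2.2] at h1
          exact π.injective h1⟩, by
          apply Equiv.ext
          intro x
          rw [hpf]
          exact (g x).2.2⟩
        left_inv := fun f => rfl
        right_inv := fun g => rfl }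
  obtain ⟨π₀, hπ₀⟩ := exists_equiv H K hHK
  have hF2 : (Nat.card {S : Set G // IsLeftTransversal H S ∧ IsRightTransversal K S} : ℚ) =
      ∑ σ : Perm (G ⧸ H), ∏ x, (if (Quotient.mk'' (σ x) : orbitRel.Quotient K (G ⧸ H)) =
        Quotient.mk'' x then (Nat.card K : ℚ) / tt H K (Quotient.mk'' x) else 0) := by
    rw [card_DT H K hHK, hF]
    push_cast
    rw [← Fintype.sum_equiv (Equiv.equivCongr (Equiv.refl (G ⧸ H)) π₀)
      (fun σ : Perm (G ⧸ H) => ∏ x, (Nat.card {g : G // (g : G ⧸ H) = x ∧ rr K g = π₀ (σ x)} : ℚ))]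
    · apply Finset.sum_congr rfl
      intro σ _
      apply Finset.prod_congr rfl
      intro x _
      rw [card_inter_rat, hπ₀]
    · intro σ
      rfl
  rw [prob, hF2]
  have h3 := sum_perm (fun x : G ⧸ H => (Quotient.mk'' x : orbitRel.Quotient K (G ⧸ H)))
    (fun ω => (Nat.card K : ℚ) / tt H K ω)
  have h4 : (∑ σ : Perm (G ⧸ H), ∏ x, (if (Quotient.mk'' (σ x) : orbitRel.Quotient K (G ⧸ H)) =
        Quotient.mk'' x then (Nat.card K : ℚ) / tt H K (Quotient.mk'' x) else 0)) =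
      ∏ ω : orbitRel.Quotient K (G ⧸ H),
        (((tt H K ω)! : ℚ) * ((Nat.card K : ℚ) / tt H K ω) ^ tt H K ω) := by
    refine Eq.trans (Finset.sum_congr rfl fun σ _ => Finset.prod_congr rfl fun x _ => ?_) h3
    congr 1
  rw [h4]
  have h5 : (Nat.card H : ℚ) ^ H.index = ∏ ω : orbitRel.Quotient K (G ⧸ H),
      (Nat.card K : ℚ) ^ tt H K ω := by
    rw [Finset.prod_pow_eq_pow_sum, hHK]
    congr 1
    have h6 : H.index = Nat.card (G ⧸ H) := rfl
    rw [h6, ← Nat.card_congr (Equiv.sigmaFiberEquiv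
      (fun x : G ⧸ H => (Quotient.mk'' x : orbitRel.Quotient K (G ⧸ H)))), Nat.card_sigma]
    rfl
  rw [h5, ← Finset.prod_div_distrib]
  apply Finset.prod_congr rfl
  intro ω _
  have hK : (Nat.card K : ℚ) ≠ 0 := by
    exact_mod_cast Nat.card_pos.ne'
  rw [div_pow]
  field_simp

end Count

section Numbers

/-- the factor of an orbit of size `n` -/
def ph (n : ℕ) : ℚ := (n ! : ℚ) / (n : ℚ) ^ n

lemma ph_pos {n : ℕ} (hn : n ≠ 0) : 0 < ph n := by
  rw [ph]
  positivity

lemma ph_le_one {n : ℕ} (hn : n ≠ 0) : ph n ≤ 1 := by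
  rw [ph, div_le_one (by positivity)]
  exact_mod_cast Nat.factorial_le_pow n

lemma ph_succ {n : ℕ} (hn : n ≠ 0) : ph (n + 1) ≤ ph n := by
  rw [ph, ph, Nat.factorial_succ, pow_succ]
  push_cast
  rw [div_le_div_iff₀ (by positivity) (by positivity)]
  have h1 : (n : ℚ) ^ n ≤ ((n : ℚ) + 1) ^ n := by
    gcongr
    linarith
  have h2 : (0 : ℚ) ≤ (n ! : ℚ) * ((n : ℚ) + 1) := by positivity
  nlinarith [mul_le_mul_of_nonneg_left h1 h2]

lemma ph_six {n : ℕ} (hn : 6 ≤ n) : ph n ≤ 5 / 324 := by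
  induction n, hn using Nat.le_induction with
  | base =>
    rw [ph]
    norm_num [Nat.factorial]
  | succ k hk ih => exact (ph_succ (by omega)).trans ih

lemma ph_values : ph 1 = 1 ∧ ph 2 = 1 / 2 ∧ ph 3 = 2 / 9 ∧ ph 4 = 3 / 32 ∧ ph 5 = 24 / 625 := by
  refine ⟨?_, ?_, ?_, ?_, ?_⟩ <;> norm_num [ph, Nat.factorial]

lemma exponents {a b c d : ℕ} (h : (1 / 2 : ℚ) ^ a * (2 / 9) ^ b * (3 / 32) ^ c * (24 / 625) ^ d =
    12 / 625) : a = 1 ∧ b = 0 ∧ c = 0 ∧ d = 1 := by
  have ha1 : (1 / 2 : ℚ) ^ a ≤ 1 := pow_le_one₀ (by norm_num) (by norm_num)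
  have hb1 : (2 / 9 : ℚ) ^ b ≤ 1 := pow_le_one₀ (by norm_num) (by norm_num)
  have hc1 : (3 / 32 : ℚ) ^ c ≤ 1 := pow_le_one₀ (by norm_num) (by norm_num)
  have hd1 : (24 / 625 : ℚ) ^ d ≤ 1 := pow_le_one₀ (by norm_num) (by norm_num)
  have ha0 : 0 < (1 / 2 : ℚ) ^ a := by positivity
  have hb0 : 0 < (2 / 9 : ℚ) ^ b := by positivity
  have hc0 : 0 < (3 / 32 : ℚ) ^ c := by positivity
  have hd0 : 0 < (24 / 625 : ℚ) ^ d := by positivity
  have hab : (1 / 2 : ℚ) ^ a * (2 / 9) ^ b ≤ 1 := mul_le_one₀ ha1 hb0.le hb1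
  have habc : (1 / 2 : ℚ) ^ a * (2 / 9) ^ b * (3 / 32) ^ c ≤ 1 := mul_le_one₀ hab hc0.le hc1
  have hd : d < 2 := by
    by_contra hcon
    push Not at hcon
    have h1 : (24 / 625 : ℚ) ^ d ≤ (24 / 625) ^ 2 :=
      pow_le_pow_of_le_one (by norm_num) (by norm_num) hcon
    have h2 : (12 / 625 : ℚ) ≤ 1 * (24 / 625) ^ 2 := by
      rw [← h]
      exact mul_le_mul habc h1 hd0.le (by norm_num)
    norm_num at h2
  have hc : c < 2 := by
    by_contra hcon
    push Not at hcon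
    have h1 : (3 / 32 : ℚ) ^ c ≤ (3 / 32) ^ 2 :=
      pow_le_pow_of_le_one (by norm_num) (by norm_num) hcon
    have h2 : (12 / 625 : ℚ) ≤ 1 * (3 / 32) ^ 2 * 1 := by
      rw [← h]
      exact mul_le_mul (mul_le_mul hab h1 hc0.le (by norm_num)) hd1 hd0.le (by norm_num)
    norm_num at h2
  have hb : b < 3 := by
    by_contra hcon
    push Not at hcon
    have h1 : (2 / 9 : ℚ) ^ b ≤ (2 / 9) ^ 3 :=
      pow_le_pow_of_le_one (by norm_num) (by norm_num) hcon
    have h2 : (12 / 625 : ℚ) ≤ 1 * (2 / 9) ^ 3 * 1 * 1 := by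
      rw [← h]
      exact mul_le_mul (mul_le_mul (mul_le_mul ha1 h1 hb0.le (by norm_num)) hc1 hc0.le
        (by norm_num)) hd1 hd0.le (by norm_num)
    norm_num at h2
  have ha : a < 6 := by
    by_contra hcon
    push Not at hcon
    have h1 : (1 / 2 : ℚ) ^ a ≤ (1 / 2) ^ 6 :=
      pow_le_pow_of_le_one (by norm_num) (by norm_num) hcon
    have h2 : (12 / 625 : ℚ) ≤ (1 / 2) ^ 6 * 1 * 1 * 1 := by
      rw [← h]
      exact mul_le_mul (mul_le_mul (mul_le_mul h1 hb1 hb0.le (by norm_num)) hc1 hc0.le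
        (by norm_num)) hd1 hd0.le (by norm_num)
    norm_num at h2
  interval_cases d <;> interval_cases c <;> interval_cases b <;> interval_cases a <;>
    first | exact ⟨rfl, rfl, rfl, rfl⟩ | (exfalso; norm_num at h)

/-- The multiset of orbit sizes is determined by the product. -/
theorem sizes {Ω : Type*} [Fintype Ω] (t : Ω → ℕ) (ht : ∀ ω, t ω ≠ 0)
    (h : ∏ ω, ph (t ω) = 12 / 625) :
    ∃ u v : Ω, t u = 2 ∧ t v = 5 ∧ ∀ ω, ω = u ∨ ω = v ∨ t ω = 1 := by
  classical
  have hle : ∀ ω, 12 / 625 ≤ ph (t ω) := by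
    intro ω
    rw [← h, ← Finset.mul_prod_erase _ _ (Finset.mem_univ ω)]
    apply mul_le_of_le_one_right (ph_pos (ht ω)).le
    apply Finset.prod_le_one
    · intro i _
      exact (ph_pos (ht i)).le
    · intro i _
      exact ph_le_one (ht i)
  have h5 : ∀ ω, t ω ≤ 5 := by
    intro ω
    by_contra hcon
    push Not at hcon
    have h1 := (hle ω).trans (ph_six hcon)
    norm_num at h1
  have hprod : ∏ ω, ph (t ω) = ∏ j ∈ Finset.Icc 1 5, ph j ^ (Finset.univ.filter fun ω => t ω = j).card := by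
    rw [← Finset.prod_fiberwise_of_maps_to (s := Finset.univ) (t := Finset.Icc 1 5) (g := t)]
    · apply Finset.prod_congr rfl
      intro j _
      rw [Finset.prod_congr rfl (g := fun _ => ph j), Finset.prod_const]
      intro ω hω
      rw [(Finset.mem_filter.mp hω).2]
    · intro ω _
      rw [Finset.mem_Icc]
      exact ⟨Nat.one_le_iff_ne_zero.mpr (ht ω), h5 ω⟩
  have hI : Finset.Icc 1 5 = ({1, 2, 3, 4, 5} : Finset ℕ) := by decide
  obtain ⟨v1, v2, v3, v4, v5⟩ := ph_values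
  rw [hprod, hI, Finset.prod_insert (by decide), Finset.prod_insert (by decide),
    Finset.prod_insert (by decide), Finset.prod_insert (by decide), Finset.prod_singleton,
    v1, v2, v3, v4, v5, one_pow, one_mul, ← mul_assoc, ← mul_assoc] at h
  obtain ⟨n2, n3, n4, n5⟩ := exponents h
  rw [Finset.card_eq_one] at n2 n5
  obtain ⟨u, hu⟩ := n2
  obtain ⟨v, hv⟩ := n5
  rw [Finset.card_eq_zero] at n3 n4
  have memu : ∀ ω, t ω = 2 ↔ ω = u := by
    intro ω
    have : ω ∈ Finset.univ.filter (fun ω => t ω = 2) ↔ ω ∈ ({u} : Finset Ω) := by rw [hu]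
    simpa using this
  have memv : ∀ ω, t ω = 5 ↔ ω = v := by
    intro ω
    have : ω ∈ Finset.univ.filter (fun ω => t ω = 5) ↔ ω ∈ ({v} : Finset Ω) := by rw [hv]
    simpa using this
  have mem3 : ∀ ω, t ω ≠ 3 := by
    intro ω hω
    have : ω ∈ Finset.univ.filter (fun ω => t ω = 3) := by simpa using hω
    rw [n3] at this
    exact absurd this (Finset.notMem_empty ω)
  have mem4 : ∀ ω, t ω ≠ 4 := by
    intro ω hω
    have : ω ∈ Finset.univ.filter (fun ω => t ω = 4) := by simpa using hω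
    rw [n4] at this
    exact absurd this (Finset.notMem_empty ω)
  refine ⟨u, v, (memu u).mpr rfl, (memv v).mpr rfl, ?_⟩
  intro ω
  rw [← memu, ← memv]
  have h1 := h5 ω
  have h2 := ht ω
  have h3 := mem3 ω
  have h4 := mem4 ω
  omega

end Numbers

/-- The permanent of `T` is the product of the `t i ! / t i ^ t i`. -/
theorem permanent_T {s : ℕ} (t : Fin s → ℕ) : (T t).permanent = ∏ i, ph (t i) := by
  classical
  rw [Matrix.permanent]
  have h1 := sum_perm (fun a : Σ i, Fin (t i) => a.1) (fun i => (1 / (t i : ℚ)))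
  have h2 : ∀ i, Nat.card {a : Σ i, Fin (t i) // a.1 = i} = t i := by
    intro i
    have e : {a : Σ i, Fin (t i) // a.1 = i} ≃ Fin (t i) :=
      { toFun := fun a => cast (by rw [a.2]) a.1.2
        invFun := fun b => ⟨⟨i, b⟩, rfl⟩
        left_inv := by
          rintro ⟨⟨j, b⟩, rfl⟩
          rfl
        right_inv := fun _ => rfl }
    rw [Nat.card_congr e, Nat.card_eq_fintype_card, Fintype.card_fin]
  simp_rw [h2] at h1
  refine (Eq.trans ?_ h1).trans ?_
  · apply Finset.sum_congr rfl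
    intro σ _
    apply Finset.prod_congr rfl
    rintro a _
    rw [T]
    obtain ⟨k, i⟩ := a
    obtain ⟨⟨k', i'⟩, hk⟩ : ∃ z, σ ⟨k, i⟩ = z := ⟨_, rfl⟩
    rw [hk, Matrix.blockDiagonal'_apply']
    by_cases h : k' = k
    · subst h
      simp
    · simp [h]
  · apply Finset.prod_congr rfl
    intro i _
    rw [ph, one_div, inv_pow, div_eq_mul_inv]

theorem main {G : Type*} [Group G] [Finite G] (H K : Subgroup G) (hHK : Nat.card H = Nat.card K) :
    prob H K ≠ 12 / 625 := by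
  intro h
  have := Fintype.ofFinite (orbitRel.Quotient K (G ⧸ H))
  rw [prob_eq H K hHK] at h
  have ht : ∀ ω, tt H K ω ≠ 0 := by
    intro ω
    obtain ⟨x, rfl⟩ := Quotient.exists_rep ω
    have h1 := tt_mk H K x
    have h2 : (⟦x⟧ : orbitRel.Quotient K (G ⧸ H)) = Quotient.mk'' x := rfl
    rw [h2, h1]
    have : Nonempty (orbit K x) := ⟨⟨x, mem_orbit_self x⟩⟩
    exact Nat.card_pos.ne'
  obtain ⟨u, v, hu, hv, huv⟩ := sizes (tt H K) ht h
  obtain ⟨a, rfl⟩ := Quotient.exists_rep u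
  obtain ⟨b, rfl⟩ := Quotient.exists_rep v
  have hu' : Nat.card (orbit K a) = 2 := by
    rw [← hu]
    exact (tt_mk H K a).symm
  have hv' : Nat.card (orbit K b) = 5 := by
    rw [← hv]
    exact (tt_mk H K b).symm
  refine Pool.Agent.V1131.TwoFiveB.no_action K ?_ a b hu' hv' ?_
  · rw [← hHK, mul_comm]
    exact Subgroup.card_mul_index H
  · intro x
    rcases huv (Quotient.mk'' x) with h1 | h1 | h1
    · left
      exact orbitRel_apply.mp (Quotient.exact h1)
    · right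
      left
      exact orbitRel_apply.mp (Quotient.exact h1)
    · right
      right
      rw [tt_mk] at h1
      intro k hk
      obtain ⟨z, hz⟩ := Nat.card_eq_one_iff_exists.mp h1
      have h2 := hz ⟨x, mem_orbit_self x⟩
      have h3 := hz ⟨(⟨k, hk⟩ : K) • x, mem_orbit x _⟩
      have h4 := h3.trans h2.symm
      exact congrArg Subtype.val h4

/-- Q1 and Q2 have negative answers: for the sizes `1, 2, 5` the permanent of `T` is not of the
form `P_G(H,K)`. -/
theorem result : ∃ (s : ℕ) (t : Fin s → ℕ), (∀ i, 1 ≤ t i) ∧ (∃ i, t i = 1) ∧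
    ∀ (G : Type) [Group G] [Finite G] (H K : Subgroup G), Nat.card H = Nat.card K →
      prob H K ≠ (T t).permanent := by
  refine ⟨3, ![1, 2, 5], ?_, ⟨0, rfl⟩, ?_⟩
  · intro i
    fin_cases i <;> simp
  · intro G _ _ H K hHK
    have h1 : (T ![1, 2, 5]).permanent = 12 / 625 := by
      obtain ⟨v1, v2, v3, v4, v5⟩ := ph_values
      rw [permanent_T, Fin.prod_univ_three]
      show ph 1 * ph 2 * ph 5 = _
      rw [v1, v2, v5]
      norm_num
    rw [h1]
    exact main H K hHK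

end Pool.Agent.Results.MP_e51b07_al.TwoFive
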